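import Pool.Agent.Y696.CTP.Stm

/-!
# Project CTP: squarefree integers prime to `3` are squarefree in the Eisenstein integers
-/

set_option autoImplicit false

namespace Pool.Agent.Y888.CTP

open Pool.Agent.Y692.QS Pool.Agent.Y696.CTP

theorem nr_dvd {x z : Ei} (h : x ∣ z) : nr x ∣ nr z := by
  obtain ⟨y, rfl⟩ := h
  exact ⟨nr y, nr_mul x y⟩

theorem nsq : S_NSQ := by
  intro N hN h3 x hx
  obtain ⟨y, hy⟩ := hx
  have hN0 : N ≠ 0 := hN.ne_zero
  have hsqN : Squarefree (N : ℤ) := Int.squarefree_natCast.2 hN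
  have hNE : (N : Ei) = ((N : ℤ) : Ei) := by simp
  have hx0 : x ≠ 0 := by
    rintro rfl
    rw [zero_mul, zero_mul] at hy
    have h1 := congrArg nr hy
    rw [nr_nat] at h1
    have h2 : nr 0 = 0 := by decide
    rw [h2] at h1
    exact hN0 (by exact_mod_cast (pow_eq_zero_iff two_ne_zero).1 h1)
  have hn0 : nr x ≠ 0 := fun h => hx0 (nr_zero_iff.1 h)
  have hnpos : 0 < nr x := lt_of_le_of_ne (nr_nonneg x) (Ne.symm hn0)
  have hnd : nr x ∣ (N : ℤ) := by
    have e1 := congrArg nr hy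
    rw [nr_nat, nr_mul, nr_mul] at e1
    have h1 : nr x ^ 2 ∣ (N : ℤ) ^ 2 := ⟨nr y, by rw [e1]; ring⟩
    exact (Int.pow_dvd_pow_iff two_ne_zero).1 h1
  obtain ⟨M, hM⟩ := hnd
  have hsq' : Squarefree (nr x * M) := hM ▸ hsqN
  have hcop : IsCoprime (nr x) M := (squarefree_mul_iff.1 hsq').1.isCoprime
  have hsqn : Squarefree (nr x) := (squarefree_mul_iff.1 hsq').2.1
  have e2 : x * y = star x * (M : Ei) := by
    apply mul_left_cancel₀ hx0
    rw [← mul_assoc, ← hy, hNE, hM, ← mul_assoc, mul_star]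
    push_cast
    ring
  obtain ⟨u, v, huv⟩ := hcop
  have hs : x ∣ star x := by
    refine ⟨(u : Ei) * star x * star x + (v : Ei) * y, ?_⟩
    have h1 : ((u * nr x + v * M : ℤ) : Ei) = 1 := by rw [huv]; simp
    calc star x = star x * ((u * nr x + v * M : ℤ) : Ei) := by rw [h1, mul_one]
      _ = (u : Ei) * star x * ((nr x : ℤ) : Ei) + v * (star x * (M : Ei)) := by push_cast; ring
      _ = (u : Ei) * star x * (x * star x) + v * (x * y) := by rw [mul_star, e2]
      _ = _ := by ring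
  have hb : nr x ∣ 3 * x.im ^ 2 := by
    have h1 := nr_dvd (dvd_sub (dvd_refl x) hs)
    have h2 : nr (x - star x) = 3 * x.im ^ 2 := by
      unfold nr
      rw [QuadraticAlgebra.re_sub, QuadraticAlgebra.im_sub, star_re, star_im]
      ring
    rwa [h2] at h1
  have ha : nr x ∣ 3 * x.re ^ 2 := by
    have h1 := nr_dvd (dvd_sub (hs.mul_left w) ((dvd_refl x).mul_left (w * w)))
    have h2 : nr (w * star x - w * w * x) = 3 * x.re ^ 2 := by
      unfold nr
      simp only [QuadraticAlgebra.re_sub, QuadraticAlgebra.im_sub, Pool.Agent.Y692.QS.mul_re,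
        Pool.Agent.Y692.QS.mul_im, star_re, star_im, w_re, w_im]
      ring
    rwa [h2] at h1
  have h3n : IsCoprime (nr x) 3 := by
    rw [isCoprime_comm, Prime.coprime_iff_not_dvd Int.prime_three]
    intro h
    have h1 : (3 : ℤ) ∣ (N : ℤ) := hM ▸ h.mul_right M
    exact h3 (by exact_mod_cast h1)
  have ha' : nr x ∣ x.re := by
    have h1 : nr x ∣ x.re ^ 2 := h3n.dvd_of_dvd_mul_left ha
    exact (hsqn.dvd_pow_iff_dvd two_ne_zero).1 h1
  have hb' : nr x ∣ x.im := by
    have h1 : nr x ∣ x.im ^ 2 := h3n.dvd_of_dvd_mul_left hb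
    exact (hsqn.dvd_pow_iff_dvd two_ne_zero).1 h1
  have hfin : nr x * nr x ∣ nr x := by
    obtain ⟨a, ha⟩ := ha'
    obtain ⟨b, hb⟩ := hb'
    refine ⟨a ^ 2 - a * b + b ^ 2, ?_⟩
    conv_lhs => rw [nr, ha, hb]
    ring
  have h1 : IsUnit (nr x) := by
    have h2 : nr x * nr x ∣ nr x * 1 := by rw [mul_one]; exact hfin
    exact isUnit_of_dvd_one ((mul_dvd_mul_iff_left hn0).1 h2)
  rw [isUnit_iff]
  rcases Int.isUnit_iff.1 h1 with h | h
  · exact h
  · omega

end Pool.Agent.Y888.CTP
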