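import Pool.Agent.Y696.CTP.Stm
import Pool.Agent.Y664.QA3

/-!
# Project CTP: the Tate-Shafarevich group over a subfield of index `2`, 3-part
-/

set_option autoImplicit false

open scoped Classical

namespace Pool.Agent.Y888.CTP

open NumberField IsDedekindDomain WeierstrassCurve Pool.Agent.Y696
open Pool.Agent.TH841.SH.D (Pt act Gal Coch IsCoc IsCob LocTriv cob)
open Pool.Agent.TH841.NF.D (Sha shaCoc IsShaCoc)
open Pool.Agent.Y664.QA

section ab

variable {k : Type} [Field k] {W : WeierstrassCurve k}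

/-- twice a cocycle that vanishes on a subgroup of index two is a coboundary -/
theorem cob2 {f : Coch W} (hf : ∀ σ τ : Gal k, f (σ * τ) = f σ + act W σ.toAlgHom (f τ))
    (H : Subgroup (Gal k)) (hH : ∀ a b, a ∉ H → b ∉ H → a * b ∈ H) (h0 : ∀ s ∈ H, f s = 0) :
    ∃ Q : Pt W (AlgebraicClosure k), ∀ s, f s + f s = act W s.toAlgHom Q - Q := by
  by_cases hall : ∀ s, s ∈ H
  · refine ⟨0, fun s => ?_⟩
    rw [h0 s (hall s), map_zero, add_zero, sub_zero]
  push Not at hall
  obtain ⟨s0, hs0⟩ := hall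
  have hs0' : s0⁻¹ ∉ H := fun h => hs0 (by simpa using H.inv_mem h)
  have hr : ∀ h ∈ H, f (s0 * h) = f s0 := fun h hh => by rw [hf, h0 h hh, map_zero, add_zero]
  refine ⟨-f s0, fun s => ?_⟩
  by_cases hs : s ∈ H
  · have h1 : s * s0 ∉ H := fun h => hs0 (by
      have := H.mul_mem (H.inv_mem hs) h
      rwa [inv_mul_cancel_left] at this)
    have h2 := hr _ (hH _ _ hs0' h1)
    rw [mul_inv_cancel_left, hf, h0 s hs, zero_add] at h2
    rw [h0 s hs, map_neg, h2, add_zero, sub_neg_eq_add, neg_add_cancel]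
  · have h1 := hr _ (hH _ _ hs0' hs)
    rw [mul_inv_cancel_left] at h1
    have h2 := h0 _ (hH _ _ hs hs0)
    rw [hf, h1] at h2
    rw [h1, map_neg, sub_neg_eq_add, neg_eq_of_add_eq_zero_left h2]

end ab

section quad

variable {k F : Type} [Field k] [NumberField k] [Field F] [NumberField F] [Algebra k F]
  (j : AlgebraicClosure k ≃ₐ[k] AlgebraicClosure F)

/-- the restriction to `F` -/
noncomputable def rr [Normal k F] : Gal k →* (F ≃ₐ[k] F) :=
  (AlgEquiv.restrictNormalHom F).comp (AlgEquiv.autCongr j).toMonoidHom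

omit [NumberField k] [NumberField F] in
theorem rr_apply [Normal k F] (s : Gal k) (x : F) :
    algebraMap F (AlgebraicClosure F) (rr j s x) =
      j (s (j.symm (algebraMap F (AlgebraicClosure F) x))) :=
  AlgEquiv.restrictNormal_commutes (AlgEquiv.autCongr j s) F x

theorem exists_res [Normal k F] {s : Gal k} (hs : rr j s = 1) : ∃ σ : Gal F, res j σ = s := by
  have hc : ∀ x : F, j (s (j.symm (algebraMap F (AlgebraicClosure F) x))) =
      algebraMap F (AlgebraicClosure F) x := by
    intro x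
    rw [← rr_apply, hs]
    rfl
  let σ : Gal F :=
    { toFun := fun x => j (s (j.symm x))
      invFun := fun x => j (s.symm (j.symm x))
      left_inv := fun x => by simp
      right_inv := fun x => by simp
      map_mul' := fun x y => by simp
      map_add' := fun x y => by simp
      commutes' := hc }
  refine ⟨σ, AlgEquiv.ext fun x => j.injective ?_⟩
  rw [res_apply]
  change j (s (j.symm (j x))) = j (s x)
  rw [j.symm_apply_apply]

theorem rr_mul (h2 : Module.finrank k F = 2) [Normal k F] (a b : Gal k) (ha : a ∉ (rr j).ker)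
    (hb : b ∉ (rr j).ker) : a * b ∈ (rr j).ker := by
  have hg : IsGalois k F := ⟨⟩
  have hfd : FiniteDimensional k F := Module.finite_of_finrank_pos (by rw [h2]; norm_num)
  have hcard : Nat.card (F ≃ₐ[k] F) = 2 := by rw [IsGalois.card_aut_eq_finrank, h2]
  obtain ⟨σ, hσ, huniq⟩ := (Nat.card_eq_two_iff' (1 : F ≃ₐ[k] F)).1 hcard
  rw [MonoidHom.mem_ker] at ha hb ⊢
  rw [map_mul, huniq _ ha, huniq _ hb]
  by_contra h
  exact hσ (mul_eq_left.1 (huniq _ h))

omit [NumberField k] [NumberField F] in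
theorem rst_add (f g : Coch (E0 k)) : rst j (f + g) = rst j f + rst j g := by
  funext σ
  change tr k F (AlgebraicClosure F) (act (E0 k) (j : _ →ₐ[k] _) (f (res j σ) + g (res j σ))) = _
  rw [map_add, map_add]
  rfl

omit [NumberField k] [NumberField F] in
theorem rst_cob {f : Coch (E0 k)} (hf : IsCob (E0 k) f) : IsCob (E0 F) (rst j f) := by
  obtain ⟨P, hP⟩ := hf
  refine ⟨tr k F (AlgebraicClosure F) (act (E0 k) (j : _ →ₐ[k] _) P), fun σ => ?_⟩
  rw [rst_apply, hP, map_sub, map_sub, tr_act_res]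

omit [NumberField k] [NumberField F] in
open NumberField.LiesOver in
/-- locally trivial at the infinite places: also after the restriction -/
theorem rst_loc_inf {g : Coch (E0 k)} (h : ∀ v : InfinitePlace k, LocTriv (E0 k) v.Completion g)
    (w : InfinitePlace F) : LocTriv (E0 F) w.Completion (rst j g) := by
  let v : InfinitePlace k := w.comap (algebraMap k F)
  have hwv : w.LiesOver v := ⟨rfl⟩
  have hsc : IsScalarTower k F w.Completion := IsScalarTower.of_algebraMap_eq fun x => by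
    apply InfinitePlace.Completion.ext
    rfl
  have h1 : LocTriv (E0 k) w.Completion g :=
    locTriv_up (E0 k) (Kv := v.Completion) (L := w.Completion) (h v)
  exact rst_loc j h1

theorem rst_sha {g : Coch (E0 k)} (h : IsShaCoc (E0 k) g) : IsShaCoc (E0 F) (rst j g) :=
  ⟨rst_coc j h.1, fun w => rst_loc_all k F j h.2.1 w, fun w => rst_loc_inf j h.2.2 w⟩

/-- the restriction of the locally trivial cocycles -/
noncomputable def rC : shaCoc (E0 k) →+ shaCoc (E0 F) where
  toFun f := ⟨rst j f.1, rst_sha j f.2⟩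
  map_zero' := by
    apply Subtype.ext
    have h := rst_add j 0 0
    rw [add_zero] at h
    exact left_eq_add.1 h
  map_add' f g := Subtype.ext (rst_add j f.1 g.1)

/-- the restriction of the Tate-Shafarevich groups -/
noncomputable def rS : Sha (E0 k) →+ Sha (E0 F) :=
  QuotientAddGroup.map _ _ (rC j) (fun _ hf => rst_cob j hf)

/-- the kernel of the restriction is killed by two -/
theorem ker_two (h2 : Module.finrank k F = 2) (y : Sha (E0 k)) (hy : rS j y = 0) :
    2 • y = 0 := by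
  have hq : Algebra.IsQuadraticExtension k F := ⟨h2⟩
  have hn : Normal k F := inferInstance
  obtain ⟨⟨g, hg⟩, rfl⟩ := QuotientAddGroup.mk_surjective y
  have hg' : IsShaCoc (E0 k) g := hg
  have h1 : (rC j ⟨g, hg⟩) ∈ (cob (E0 F)).addSubgroupOf (shaCoc (E0 F)) :=
    (QuotientAddGroup.eq_zero_iff _).1 hy
  obtain ⟨T, hT⟩ : IsCob (E0 F) (rst j g) := h1
  let J : Pt (E0 k) (AlgebraicClosure k) →+ Pt (E0 k) (AlgebraicClosure F) :=
    act (E0 k) (j : AlgebraicClosure k →ₐ[k] AlgebraicClosure F)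
  let J' : Pt (E0 k) (AlgebraicClosure F) →+ Pt (E0 k) (AlgebraicClosure k) :=
    act (E0 k) (j.symm : AlgebraicClosure F →ₐ[k] AlgebraicClosure k)
  have hJJ : ∀ P, J (J' P) = P := by
    intro P
    change act (E0 k) _ (act (E0 k) _ P) = P
    rw [act_act]
    have : (j : AlgebraicClosure k →ₐ[k] AlgebraicClosure F).comp
        (j.symm : AlgebraicClosure F →ₐ[k] AlgebraicClosure k) = AlgHom.id k _ :=
      AlgHom.ext fun x => j.apply_symm_apply x
    rw [this, act_id]
  have hJJ' : ∀ P, J' (J P) = P := by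
    intro P
    change act (E0 k) _ (act (E0 k) _ P) = P
    rw [act_act]
    have : (j.symm : AlgebraicClosure F →ₐ[k] AlgebraicClosure k).comp
        (j : AlgebraicClosure k →ₐ[k] AlgebraicClosure F) = AlgHom.id k _ :=
      AlgHom.ext fun x => j.symm_apply_apply x
    rw [this, act_id]
  let P0 : Pt (E0 k) (AlgebraicClosure k) := J' ((tr k F (AlgebraicClosure F)).symm T)
  have hP0 : tr k F (AlgebraicClosure F) (J P0) = T := by
    rw [hJJ, AddEquiv.apply_symm_apply]
  let g1 : Coch (E0 k) := fun s => g s - (act (E0 k) s.toAlgHom P0 - P0)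
  have hg1 : ∀ s, g1 s = g s - (act (E0 k) s.toAlgHom P0 - P0) := fun s => rfl
  have hres : ∀ σ : Gal F, g1 (res j σ) = 0 := by
    intro σ
    have e1 : tr k F (AlgebraicClosure F) (J (g1 (res j σ))) = 0 := by
      rw [hg1, map_sub, map_sub, map_sub, map_sub, hP0]
      have e2 : tr k F (AlgebraicClosure F) (J (g (res j σ))) = act (E0 F) σ.toAlgHom T - T :=
        hT σ
      have e3 : tr k F (AlgebraicClosure F) (J (act (E0 k) (res j σ).toAlgHom P0)) =
          act (E0 F) σ.toAlgHom T := by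
        rw [← hP0]
        exact tr_act_res j σ P0
      rw [e2, e3, sub_self]
    have e4 : J (g1 (res j σ)) = 0 := by
      apply (tr k F (AlgebraicClosure F)).injective
      rw [e1, map_zero]
    rw [← hJJ' (g1 (res j σ)), e4, map_zero]
  have hcoc : ∀ σ τ : Gal k, g1 (σ * τ) = g1 σ + act (E0 k) σ.toAlgHom (g1 τ) := by
    intro σ τ
    have e1 : act (E0 k) (σ * τ).toAlgHom P0 =
        act (E0 k) σ.toAlgHom (act (E0 k) τ.toAlgHom P0) :=
      (act_act (E0 k) τ.toAlgHom σ.toAlgHom P0).symm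
    rw [hg1, hg1, hg1, hg'.1.2, e1, map_sub, map_sub]
    abel
  obtain ⟨Q, hQ⟩ := cob2 hcoc (rr j).ker (rr_mul j h2) (fun s hs => by
    obtain ⟨σ, hσ⟩ := exists_res j (MonoidHom.mem_ker.1 hs)
    rw [← hσ]
    exact hres σ)
  have e0 : (2 • (QuotientAddGroup.mk (⟨g, hg⟩ : shaCoc (E0 k)) : Sha (E0 k)) : Sha (E0 k)) =
      (QuotientAddGroup.mk (⟨g, hg⟩ + ⟨g, hg⟩ : shaCoc (E0 k)) : Sha (E0 k)) := two_nsmul _
  refine e0.trans ((QuotientAddGroup.eq_zero_iff (⟨g, hg⟩ + ⟨g, hg⟩ : shaCoc (E0 k))).2 ?_)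
  change IsCob (E0 k) (g + g)
  refine ⟨Q + (P0 + P0), fun s => ?_⟩
  have h5 := hQ s
  rw [hg1] at h5
  have h6 : g s + g s = (act (E0 k) s.toAlgHom Q - Q) +
      ((act (E0 k) s.toAlgHom P0 - P0) + (act (E0 k) s.toAlgHom P0 - P0)) := by
    rw [← h5]; abel
  change g s + g s = _
  rw [h6, map_add, map_add]
  abel

end quad

theorem aux {k F : Type} [Field k] [NumberField k] [Field F] [NumberField F] [Algebra k F]
    (h2 : Module.finrank k F = 2)
    (h : ∀ (n : ℕ) (x : Sha (E0 F)), 3 ^ n • x = 0 → 3 • x = 0) (n : ℕ) (x : Sha (E0 k))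
    (hx : 3 ^ n • x = 0) : 3 • x = 0 := by
  have hq : Algebra.IsQuadraticExtension k F := ⟨h2⟩
  have hcl : IsAlgClosure k (AlgebraicClosure F) :=
    ⟨inferInstance, Algebra.IsAlgebraic.trans k F (AlgebraicClosure F)⟩
  let j : AlgebraicClosure k ≃ₐ[k] AlgebraicClosure F :=
    IsAlgClosure.equiv k (AlgebraicClosure k) (AlgebraicClosure F)
  have h3 : 3 • rS j x = 0 := by
    apply h n
    rw [← map_nsmul, hx, map_zero]
  have h4 : 2 • (3 • x) = 0 := ker_two j h2 (3 • x) (by rw [map_nsmul, h3])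
  have h5 : 3 ^ n • (3 • x) = 0 := by rw [smul_comm, hx, smul_zero]
  have h6 := addOrderOf_dvd_of_nsmul_eq_zero h4
  have h7 := addOrderOf_dvd_of_nsmul_eq_zero h5
  have h8 : addOrderOf (3 • x) = 1 :=
    Nat.eq_one_of_dvd_coprimes (Nat.Coprime.pow_right n (by norm_num)) h6 h7
  exact AddMonoid.addOrderOf_eq_one_iff.1 h8

theorem shp : Pool.Agent.Y696.CTP.S_SHP := by
  intro k F _ _ _ _ _ h2 h
  have hk : Pool.Agent.Y696.CTK.ED (1 : k) = E0 k := rfl
  have hF : Pool.Agent.Y696.CTK.ED (1 : F) = E0 F := rfl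
  rw [hk]
  rw [hF] at h
  exact aux h2 h

end Pool.Agent.Y888.CTP
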